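import Mathlib
import Pool.Agent.X23.AsLim
import Pool.Agent.X23.EssOne

/-!
# The only positive one-point essential spectrum of an asymptotic limit is `{1}`
-/

open scoped InnerProductSpace ComplexOrder BoundedContinuousFunction

namespace Pool.Agent.Results.MP_fdf6c3_an.EssentialPointOne

open Pool.Agent.X23.AsLim Pool.Agent.X23.EssOne

/-- If `A` is the asymptotic limit, for a Banach limit `L`, of a power bounded operator on an
infinite-dimensional complex Hilbert space and the essential spectrum of `A` is `{t}` with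
`t > 0`, then `t = 1`. -/
theorem result {H : Type*} [NormedAddCommGroup H] [InnerProductSpace ℂ H] [CompleteSpace H]
    (hinf : ¬ FiniteDimensional ℂ H) (L : (ℕ →ᵇ ℂ) →ₗ[ℂ] ℂ) (hL : IsBanachLimit L)
    (T A : H →L[ℂ] H) (hT : PowerBounded T) (hA : IsAsymptoticLimit L T A)
    (t : ℝ) (ht : 0 < t) (hess : essSpectrum A = {(t : ℂ)}) : t = 1 := by
  obtain ⟨M, hM⟩ := hT
  have hpos : A.IsPositive := isPositive hM hL hA
  have hsa : IsSelfAdjoint A := hpos.isSelfAdjoint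
  have hcomp : IsCompactOperator (A - (t : ℂ) • (1 : H →L[ℂ] H) : H →L[ℂ] H) := by
    refine compact_sub_of_parametrix A hsa t ?_
    intro μ hμ
    have hnot : (μ : ℂ) ∉ essSpectrum A := by
      rw [hess]
      intro hmem
      exact hμ (Complex.ofReal_injective hmem)
    simp only [essSpectrum, Set.mem_setOf_eq, not_not] at hnot
    obtain ⟨B, hB, -⟩ := hnot
    exact ⟨B, hB⟩
  set K : H →L[ℂ] H := A - (t : ℂ) • (1 : H →L[ℂ] H) with hK
  by_contra hne
  have hgap : 0 < |t - 1| := abs_pos.mpr (sub_ne_zero.mpr hne)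
  have hM0 : 0 ≤ M := nonneg_M hM
  -- choose the approximation quality
  set ε : ℝ := |t - 1| * t / (2 * (1 + |t - 1|) * (M ^ 2 + 1)) with hε
  have hεpos : 0 < ε := by positivity
  obtain ⟨m, q, hq, hqa⟩ := compact_approx hcomp hεpos
  set C : ℝ := m * (M ^ 2 * (1 + ‖K‖ ^ 2)) with hC
  have hC0 : 0 ≤ C := by positivity
  obtain ⟨N, hN⟩ := exists_nat_gt ((1 + |t - 1|) * C * 2 / (|t - 1| * t))
  obtain ⟨u, hu⟩ := exists_orthonormal_image hinf (ContinuousLinearMap.id ℂ H)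
    (fun x y h => h) N
  have hu' : Orthonormal ℂ u := hu
  -- Bessel for the transported family
  have hbes : ∀ (n : ℕ) (v : H), ∑ k, ‖(inner ℂ ((T ^ n) (u k)) v : ℂ)‖ ^ 2 ≤ M ^ 2 * ‖v‖ ^ 2 := by
    intro n v
    have h1 : ∀ k, (inner ℂ ((T ^ n) (u k)) v : ℂ) =
        inner ℂ (u k) ((ContinuousLinearMap.adjoint (T ^ n)) v) := by
      intro k
      rw [ContinuousLinearMap.adjoint_inner_right]
    simp only [h1]
    refine le_trans (hu'.sum_inner_products_le _) ?_
    have h2 : ‖(ContinuousLinearMap.adjoint (T ^ n)) v‖ ≤ M * ‖v‖ := by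
      refine le_trans ((ContinuousLinearMap.adjoint (T ^ n)).le_opNorm v) ?_
      have h3 : ‖ContinuousLinearMap.adjoint (T ^ n)‖ = ‖T ^ n‖ :=
        LinearIsometryEquiv.norm_map _ _
      rw [h3]
      exact mul_le_mul_of_nonneg_right (hM n) (norm_nonneg v)
    calc ‖(ContinuousLinearMap.adjoint (T ^ n)) v‖ ^ 2 ≤ (M * ‖v‖) ^ 2 :=
          pow_le_pow_left₀ (norm_nonneg _) h2 2
      _ = M ^ 2 * ‖v‖ ^ 2 := by ring
  have hznorm : ∀ (n : ℕ), ∑ k, ‖(T ^ n) (u k)‖ ^ 2 ≤ M ^ 2 * N := by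
    intro n
    have h1 : ∀ k, ‖(T ^ n) (u k)‖ ^ 2 ≤ M ^ 2 := by
      intro k
      have := norm_pow_apply hM n (u k)
      rw [hu'.1 k, mul_one] at this
      exact pow_le_pow_left₀ (norm_nonneg _) this 2
    refine le_trans (Finset.sum_le_sum (fun k _ => h1 k)) ?_
    rw [Finset.sum_const, Finset.card_univ, Fintype.card_fin, nsmul_eq_mul]
    linarith
  set D : ℝ := ε * (M ^ 2 * N) + C with hD
  have hbound : ∀ n : ℕ, ‖∑ k, (inner ℂ ((T ^ n) (u k)) (K ((T ^ n) (u k))) : ℂ)‖ ≤ D := by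
    intro n
    refine le_trans (est hqa (fun k => (T ^ n) (u k))) ?_
    refine add_le_add (mul_le_mul_of_nonneg_left (hznorm n) hεpos.le) ?_
    have hterm : ∀ i, ∑ k, ‖(inner ℂ ((T ^ n) (u k)) (q i) : ℂ)‖ *
        ‖(inner ℂ (q i) (K ((T ^ n) (u k))) : ℂ)‖ ≤ M ^ 2 * (1 + ‖K‖ ^ 2) := by
      intro i
      have h1 : ∀ k, ‖(inner ℂ ((T ^ n) (u k)) (q i) : ℂ)‖ *
          ‖(inner ℂ (q i) (K ((T ^ n) (u k))) : ℂ)‖ ≤
          ‖(inner ℂ ((T ^ n) (u k)) (q i) : ℂ)‖ ^ 2 +
          ‖(inner ℂ ((T ^ n) (u k)) (ContinuousLinearMap.adjoint K (q i)) : ℂ)‖ ^ 2 := by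
        intro k
        have h2 : ‖(inner ℂ (q i) (K ((T ^ n) (u k))) : ℂ)‖ =
            ‖(inner ℂ ((T ^ n) (u k)) (ContinuousLinearMap.adjoint K (q i)) : ℂ)‖ := by
          rw [ContinuousLinearMap.adjoint_inner_right, ← inner_conj_symm, Complex.norm_conj]
        rw [h2]
        nlinarith [sq_nonneg (‖(inner ℂ ((T ^ n) (u k)) (q i) : ℂ)‖ -
          ‖(inner ℂ ((T ^ n) (u k)) (ContinuousLinearMap.adjoint K (q i)) : ℂ)‖),
          sq_nonneg (‖(inner ℂ ((T ^ n) (u k)) (q i) : ℂ)‖),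
          sq_nonneg (‖(inner ℂ ((T ^ n) (u k)) (ContinuousLinearMap.adjoint K (q i)) : ℂ)‖)]
      refine le_trans (Finset.sum_le_sum (fun k _ => h1 k)) ?_
      rw [Finset.sum_add_distrib]
      refine le_trans (add_le_add (hbes n (q i)) (hbes n _)) ?_
      rw [hq.1 i]
      have h3 : ‖ContinuousLinearMap.adjoint K (q i)‖ ≤ ‖K‖ := by
        have h4 := (ContinuousLinearMap.adjoint K).le_opNorm (q i)
        rw [hq.1 i, mul_one] at h4
        have h5 : ‖ContinuousLinearMap.adjoint K‖ = ‖K‖ := LinearIsometryEquiv.norm_map _ _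
        rwa [h5] at h4
      have h6 : ‖ContinuousLinearMap.adjoint K (q i)‖ ^ 2 ≤ ‖K‖ ^ 2 :=
        pow_le_pow_left₀ (norm_nonneg _) h3 2
      have h7 : M ^ 2 * ‖ContinuousLinearMap.adjoint K (q i)‖ ^ 2 ≤ M ^ 2 * ‖K‖ ^ 2 :=
        mul_le_mul_of_nonneg_left h6 (by positivity)
      nlinarith
    refine le_trans (Finset.sum_le_sum (fun i _ => hterm i)) ?_
    rw [Finset.sum_const, Finset.card_univ, Fintype.card_fin, nsmul_eq_mul]
  -- the basic identity
  set S : ℂ := ∑ k, (inner ℂ (u k) (A (u k)) : ℂ) with hS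
  have hid : ∀ n : ℕ, (t : ℂ) * ((∑ k, ‖(T ^ n) (u k)‖ ^ 2 : ℝ) : ℂ) =
      S - ∑ k, (inner ℂ ((T ^ n) (u k)) (K ((T ^ n) (u k))) : ℂ) := by
    intro n
    rw [hS, Complex.ofReal_sum, Finset.mul_sum, ← Finset.sum_sub_distrib]
    refine Finset.sum_congr rfl ?_
    intro k _
    rw [← invariant_pow hM hL hA n (u k) (u k), hK]
    rw [ContinuousLinearMap.sub_apply, inner_sub_right, ContinuousLinearMap.smul_apply,
      ContinuousLinearMap.one_apply, inner_smul_right, inner_self_eq_norm_sq_to_K,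
      Complex.ofReal_pow]
    rw [sub_sub_cancel]
    rfl
  -- real parts
  have hSre : ∀ n : ℕ, t * (∑ k, ‖(T ^ n) (u k)‖ ^ 2 : ℝ) =
      S.re - (∑ k, (inner ℂ ((T ^ n) (u k)) (K ((T ^ n) (u k))) : ℂ)).re := by
    intro n
    have := congrArg Complex.re (hid n)
    rw [Complex.sub_re, ← Complex.ofReal_mul, Complex.ofReal_re] at this
    exact this
  have hre : ∀ n : ℕ, |(∑ k, (inner ℂ ((T ^ n) (u k)) (K ((T ^ n) (u k))) : ℂ)).re| ≤ D :=
    fun n => le_trans (Complex.abs_re_le_norm _) (hbound n)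
  have hSL : S = L (∑ k, ips hM (u k) (u k)) := by
    rw [hS, map_sum]
    refine Finset.sum_congr rfl ?_
    intro k _
    exact val hM hA _ _
  have hsn : ∀ n, (∑ k, ips hM (u k) (u k)) n = ((∑ k, ‖(T ^ n) (u k)‖ ^ 2 : ℝ) : ℂ) := by
    intro n
    rw [BoundedContinuousFunction.coe_sum, Finset.sum_apply, Complex.ofReal_sum]
    refine Finset.sum_congr rfl ?_
    intro k _
    rw [ips_apply, inner_self_eq_norm_sq_to_K, Complex.ofReal_pow]
    rfl
  have hup : t * S.re ≤ S.re + D := by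
    have h1 := le_of_le hL (∑ k, ips hM (u k) (u k)) ((S.re + D) / t) (by
      intro n
      rw [hsn]
      have h2 := hSre n
      have h3 := (abs_le.mp (hre n)).1
      have h4 : (∑ k, ‖(T ^ n) (u k)‖ ^ 2 : ℝ) ≤ (S.re + D) / t := by
        rw [le_div_iff₀ ht]
        linarith
      exact_mod_cast h4)
    rw [← hSL] at h1
    have h5 := (Complex.le_def.mp h1).1
    rw [Complex.ofReal_re, le_div_iff₀ ht] at h5
    linarith
  have hlo : S.re - D ≤ t * S.re := by
    have h1 := ge_of_ge hL (∑ k, ips hM (u k) (u k)) ((S.re - D) / t) (by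
      intro n
      rw [hsn]
      have h2 := hSre n
      have h3 := (abs_le.mp (hre n)).2
      have h4 : (S.re - D) / t ≤ (∑ k, ‖(T ^ n) (u k)‖ ^ 2 : ℝ) := by
        rw [div_le_iff₀ ht]
        linarith
      exact_mod_cast h4)
    rw [← hSL] at h1
    have h5 := (Complex.le_def.mp h1).1
    rw [Complex.ofReal_re, div_le_iff₀ ht] at h5
    linarith
  have hS0 : |S.re - t * N| ≤ D := by
    have h1 := hSre 0
    have h2 : (∑ k, ‖(T ^ 0) (u k)‖ ^ 2 : ℝ) = N := by
      have h3 : ∀ k, ‖(T ^ 0) (u k)‖ ^ 2 = 1 := by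
        intro k
        rw [pow_zero, ContinuousLinearMap.one_apply, hu'.1 k, one_pow]
      simp only [h3]
      simp
    rw [h2] at h1
    have h4 : S.re - t * N =
        (∑ k, (inner ℂ ((T ^ 0) (u k)) (K ((T ^ 0) (u k))) : ℂ)).re := by linarith
    rw [h4]
    exact hre 0
  have h1 : |(t - 1) * S.re| ≤ D := by
    rw [abs_le]
    constructor <;> nlinarith
  have h2 : |(t - 1) * (t * N)| ≤ D + |t - 1| * D := by
    have h3 : (t - 1) * (t * N) = (t - 1) * S.re - (t - 1) * (S.re - t * N) := by ring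
    rw [h3]
    refine le_trans (abs_sub _ _) ?_
    refine add_le_add h1 ?_
    rw [abs_mul]
    exact mul_le_mul_of_nonneg_left hS0 hgap.le
  have h3 : |(t - 1) * (t * N)| = |t - 1| * t * N := by
    rw [abs_mul, abs_of_nonneg (show (0 : ℝ) ≤ t * N by positivity)]
    ring
  rw [h3] at h2
  have h4 : (1 + |t - 1|) * C < |t - 1| * t * N / 2 := by
    have h5 : 0 < |t - 1| * t := by positivity
    rw [div_lt_iff₀ h5] at hN
    linarith
  have h5 : (1 + |t - 1|) * (ε * (M ^ 2 * N)) ≤ |t - 1| * t * N / 2 := by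
    have h6 : (1 + |t - 1|) * (ε * (M ^ 2 * N)) =
        (|t - 1| * t * N / 2) * (M ^ 2 / (M ^ 2 + 1)) := by
      rw [hε]
      have : (1 + |t - 1|) ≠ 0 := by positivity
      field_simp
    rw [h6]
    have h7 : M ^ 2 / (M ^ 2 + 1) ≤ 1 := by
      rw [div_le_one (by positivity)]
      linarith
    have h8 : 0 ≤ |t - 1| * t * N / 2 := by positivity
    nlinarith
  have h9 : D + |t - 1| * D = (1 + |t - 1|) * (ε * (M ^ 2 * N)) + (1 + |t - 1|) * C := by
    rw [hD]
    ring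
  linarith

end Pool.Agent.Results.MP_fdf6c3_an.EssentialPointOne
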